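import Mathlib
import Pool.Agent.P.MP_b9c629_co.Half

set_option autoImplicit false

namespace Pool.Agent.Results.MP_b9c629_co.Explicit333

/-- Half-size hitting sets for the axis-parallel rectangles with at least 333 points. -/
theorem result (A : Finset (ℝ × ℝ)) : ∃ A' : Finset (ℝ × ℝ), A'.card ≤ A.card / 2 ∧
    ∀ p q : ℝ × ℝ,
      333 ≤ ({x ∈ A | p.1 ≤ x.1 ∧ x.1 ≤ q.1 ∧ p.2 ≤ x.2 ∧ x.2 ≤ q.2} : Finset (ℝ × ℝ)).card →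
      ∃ y ∈ A', p.1 ≤ y.1 ∧ y.1 ≤ q.1 ∧ p.2 ≤ y.2 ∧ y.2 ≤ q.2 := by
  obtain ⟨Z, h1, h2⟩ := Pool.Agent.P.MP_b9c629_co.half A
  refine ⟨Z, h1, fun p q h => h2 p q (h.trans (le_of_eq ?_))⟩
  congr 1

end Pool.Agent.Results.MP_b9c629_co.Explicit333
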