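import Mathlib
import Pool.Agent.P.MP_b9c629_co.Main

set_option autoImplicit false

namespace Pool.Agent.Results.MP_b9c629_co.WeakNets

/-- Weak nets of linear size for axis-parallel rectangles in the plane. -/
theorem result : ∃ C : ℝ, ∀ (A : Finset (ℝ × ℝ)) (k : ℕ), 1 ≤ k → ∃ A' : Finset (ℝ × ℝ),
    (A'.card : ℝ) ≤ C * A.card / k ∧
    ∀ p q : ℝ × ℝ,
      k ≤ ({x ∈ A | p.1 ≤ x.1 ∧ x.1 ≤ q.1 ∧ p.2 ≤ x.2 ∧ x.2 ≤ q.2} : Finset (ℝ × ℝ)).card →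
      ∃ y ∈ A', p.1 ≤ y.1 ∧ y.1 ≤ q.1 ∧ p.2 ≤ y.2 ∧ y.2 ≤ q.2 := by
  refine ⟨864000 ^ 2, fun A k hk => ?_⟩
  obtain ⟨Z, h1, h2⟩ := Pool.Agent.P.MP_b9c629_co.weak_net A k hk
  refine ⟨Z, by rwa [mul_div_assoc], fun p q h => ?_⟩
  refine h2 p q (h.trans (le_of_eq ?_))
  congr 1

end Pool.Agent.Results.MP_b9c629_co.WeakNets
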